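import Pool.Agent.H8.JS.Targets

/-!
# Nondeterministic Turing machines and spectra (MP_64fb07_lc), module C1
-/

set_option autoImplicit false

namespace Pool.Agent.H3.JS

open Pool.Agent.H69.Sp Pool.Agent.H69.Mt Pool.Agent.H16.TO Pool.Agent.H8.PL Pool.Agent.H8.JS

theorem pf_c1 : J_C1 := by
  intro r T U Hh Vv x i c p s y h w fr lr o
  have hS1 : ∀ k' : K5 r T, S5 U Hh Vv x ⟨.cel fr lr o, i, c, 0, p + 1, s, y, h, w⟩ k' ↔
      k' = ⟨.put fr lr o, i, c, 0, p, s + 1, y, h, w⟩ := by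
    intro k'
    simp [S5]
  have hS2 : ∀ k' : K5 r T, S5 U Hh Vv x ⟨.put fr lr o, i, c, 0, p, s + 1, y, h, w⟩ k' ↔
      ∃ t : T, (U (decide (o = none)) (decide (p = 0)) fr lr t ∧ (∀ u, o = some u → Hh u t) ∧
        (fr = false → ∃ u, w h = some u ∧ Vv u t)) ∧
        k' = ⟨.cel fr lr (some t), i, c, 0, p, s + 1, y, h + 1,
          fun p' => if p' = h then some t else w p'⟩ := by
    intro k'
    simp only [S5, and_assoc]
  constructor
  · rw [ac_iff]
    constructor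
    · rintro (h0 | ⟨k', h1, h2⟩)
      · exact absurd h0 (by simp [A5])
      · rw [hS1] at h1
        rw [h1, ac_iff] at h2
        rcases h2 with h0 | ⟨k'', h3, h4⟩
        · exact absurd h0 (by simp [A5])
        · rw [hS2] at h3
          obtain ⟨t, ht, rfl⟩ := h3
          exact ⟨t, ht, h4⟩
    · rintro ⟨t, ht, h4⟩
      refine Or.inr ⟨_, (hS1 _).2 rfl, ?_⟩
      rw [ac_iff]
      exact Or.inr ⟨_, (hS2 _).2 ⟨t, ht, rfl⟩, h4⟩
  · intro N hN
    rw [ru_iff]
    intro k' h1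
    rw [hS1] at h1
    rw [h1, ru_iff]
    intro k'' h2
    rw [hS2] at h2
    obtain ⟨t, -, rfl⟩ := h2
    exact hN t

end Pool.Agent.H3.JS
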