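import Pool.Agent.H8.JS.Targets

/-!
# Nondeterministic Turing machines and spectra (MP_64fb07_lc), module C7
-/

set_option autoImplicit false

namespace Pool.Agent.H3.JS

open Pool.Agent.H69.Sp Pool.Agent.H69.Mt Pool.Agent.H16.TO Pool.Agent.H8.PL Pool.Agent.H8.JS

theorem pf_c7 (hC5 : J_C5) : J_C7 := by
  intro r T U Hh Vv x i c L b
  induction b with
  | zero =>
    intro fr w pr _
    constructor
    · intro _
      exact trivial
    · intro _
      rw [ac_iff]
      refine Or.inr ⟨⟨.acc, i, c, 0, L, 0, 0, 0, w⟩, ?_, ?_⟩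
      · simp [S5]
      · rw [ac_iff]
        exact Or.inl rfl
  | succ b ih =>
    intro fr w pr hw
    rw [hC5 r T U Hh Vv x i c b L fr w pr hw]
    constructor
    · rintro ⟨u, hu, h⟩
      exact ⟨u, hu, (ih false _ u (fun _ p hp => if_pos hp)).1 h⟩
    · rintro ⟨u, hu, h⟩
      exact ⟨u, hu, (ih false _ u (fun _ p hp => if_pos hp)).2 h⟩

end Pool.Agent.H3.JS
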