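import Pool.Agent.H8.JS.Targets

/-!
# Nondeterministic Turing machines and spectra (MP_64fb07_lc), module CT
-/

set_option autoImplicit false

namespace Pool.Agent.H3.JS

open Pool.Agent.H69.Sp Pool.Agent.H69.Mt Pool.Agent.H16.TO Pool.Agent.H8.PL Pool.Agent.H8.JS

theorem pf_ct (hTF : J_TF) (hT1 : J_T1) (hT2 : J_T2) : J_CT := by
  intro M e x hx
  obtain ⟨h1, h2⟩ := hTF (CC M) (Cfg (tm M e)) (CStep M x) (Step (tm M e)) (fun c => c.q = M.acc)
    (fun c => c.q = (tm M e).acc) (emb M e x) (fun c d => hT2 M e x c d)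
    (fun c => ⟨fun h => Option.some.inj h, fun h => congrArg some h⟩) (cinit M)
  constructor
  · rw [acc_iff, ac_iff, ← h1]
    constructor
    · rintro (h | ⟨c', h3, h4⟩)
      · exact absurd (show (none : Option M.Q) = some M.acc from h) (by simp)
      · rw [hT1 M e x hx] at h3
        rwa [h3] at h4
    · intro h
      exact Or.inr ⟨_, (hT1 M e x hx _).2 rfl, h⟩
  · intro T hT
    rw [runs_iff, ru_iff]
    intro c' h3
    rw [hT1 M e x hx] at h3
    rw [h3]
    exact (h2 T).2 hT

end Pool.Agent.H3.JS
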