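import Pool.Agent.H8.JS.Targets

/-!
# Nondeterministic Turing machines and spectra (MP_64fb07_lc), module JS
-/

set_option autoImplicit false

namespace Pool.Agent.H3.JS

open Pool.Agent.H69.Sp Pool.Agent.H69.Mt Pool.Agent.H16.TO Pool.Agent.H8.PL Pool.Agent.H8.JS

theorem pf_js (hNU : J_NU) (hJA : J_JA) (hJB : J_JB) : J_JS := by
  obtain ⟨-, -, hlo, hinj, hsur⟩ := hNU
  have h1 : ∀ L : Set (List Bool), lang (num '' L) = L := by
    intro L
    ext x
    constructor
    · rintro ⟨y, hy, hxy⟩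
      rwa [← hinj y x hxy]
    · intro hx
      exact ⟨x, hx, rfl⟩
  have h2 : ∀ L, L ∈ NE ↔ IsSpectrum (num '' L) := by
    intro L
    constructor
    · exact hJA L
    · intro h
      have h3 := hJB _ h
      rwa [h1] at h3
  refine ⟨h2, fun S hS => ?_⟩
  have h3 : num '' lang S = S := by
    ext m
    constructor
    · rintro ⟨x, hx, rfl⟩
      exact hx
    · intro hm
      obtain ⟨x, hx⟩ := hsur m (Nat.pos_of_ne_zero fun h0 => hS (h0 ▸ hm))
      exact ⟨x, by show num x ∈ S; rwa [hx], hx⟩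
  rw [h2, h3]

end Pool.Agent.H3.JS
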